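import Pool.Agent.EXI.CDefs

/-!
# EXJ / JDefs: points on the graph of the exponential function up to a homomorphic image of `ℤ`

The modules `EXJ/J*` are those of `EXI/C*` for an additive character `φ` of `ℤ`, `φ n = g ^ n`,
in place of a character of `ℚ`.
-/

set_option autoImplicit false

namespace Pool.Agent.EXJ

open MvPolynomial Pool.Agent.EXL Pool.Agent.EXI Pool.Agent.EXI

/-- The first coordinates of the points `(a, b)` and the `b` of the form `b = exp(a) φ(q)`. -/
def Sol (φ : AddChar ℤ ℂ) {n : ℕ} (a b : Fin n → ℂ) : Prop :=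
  ∃ q : Fin n → ℤ, ∀ j, b j = Complex.exp (a j) * φ (q j)

/-- The conclusion of the analytic input. -/
def Concl (φ : AddChar ℤ ℂ) (k : Subfield ℂ) {n : ℕ} (a b : Fin n → ℂ) : Prop :=
  ∀ h : MvPolynomial (Fin n ⊕ Fin n) k, aeval (Sum.elim a b) h ≠ 0 →
    ∃ a' b' : Fin n → ℂ, Sol φ a' b' ∧ Spec k (Sum.elim a b) (Sum.elim a' b') ∧
      aeval (Sum.elim a' b') h ≠ 0

end Pool.Agent.EXJ
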