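import Pool.Agent.EXI.CSpec
import Pool.Agent.EXJ.JDefs
import Pool.Agent.EXI.CRep

/-!
# EXI / CPoint: the choice of the point of the special fibre

PROOF.  `exists_spec` for `p = (ρ α, ρ β)`, `y = (ρ x_i)_i` and the polynomial `rename Sum.inr S`: there
is `h` with `h(p) ≠ 0`. By `ih` there are `a', b'` with `Sol`, `Spec k p (a', b')`, `h(a', b') ≠ 0`, so
there is `x0` with `Spec k (p, ρ x) ((a', b'), x0)` and `S(x0) ≠ 0`. If `α_j D(x) = N(x)` in `K` then
`ρ(α_j) D(ρ x) = N(ρ x)` (apply `ρ`; `ρ` commutes with the evaluation of polynomials over `k`, by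
`pl.ρk`), so the polynomial
`X (Sum.inl (Sum.inl j)) * rename Sum.inr D - rename Sum.inr N` vanishes at `(p, ρ x)`, hence at
`((a', b'), x0)`. Same for `β`.
-/

set_option autoImplicit false

namespace Pool.Agent.EXJ

open MvPolynomial Pool.Agent.EXL Pool.Agent.EXI

variable {k : Subfield ℂ} {K : Type} [Field K] [Algebra k K] {pl : Place k K} {m : ℕ}

/-- The choice of the point of the special fibre. -/
theorem exists_point (φ : AddChar ℤ ℂ) (x : Option (Fin (m + 1)) → pl.O) (α β : Fin m → pl.O)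
    (halg : ∀ e : pl.O, IsAlgebraic (Algebra.adjoin k
      (Set.range (Sum.elim (fun j => pl.ρ (α j)) fun j => pl.ρ (β j)))) (pl.ρ e))
    (ih : Concl φ k (fun j => pl.ρ (α j)) (fun j => pl.ρ (β j)))
    (S : MvPolynomial (Option (Fin (m + 1))) k) (hS : aeval (fun i => pl.ρ (x i)) S ≠ 0) :
    ∃ (x0 : Option (Fin (m + 1)) → ℂ) (a' b' : Fin m → ℂ), Sol φ a' b' ∧
      Spec k (fun i => pl.ρ (x i)) x0 ∧ aeval x0 S ≠ 0 ∧
      (∀ j, ∀ N D : MvPolynomial (Option (Fin (m + 1))) k,
        (α j : K) * aeval (fun i => (x i : K)) D = aeval (fun i => (x i : K)) N →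
        a' j * aeval x0 D = aeval x0 N) ∧
      (∀ j, ∀ N D : MvPolynomial (Option (Fin (m + 1))) k,
        (β j : K) * aeval (fun i => (x i : K)) D = aeval (fun i => (x i : K)) N →
        b' j * aeval x0 D = aeval x0 N) := by
  have hren : ∀ (p : Fin m ⊕ Fin m → ℂ) (y : Option (Fin (m + 1)) → ℂ)
      (f : MvPolynomial (Option (Fin (m + 1))) k),
      aeval (Sum.elim p y) (rename Sum.inr f) = aeval y f := by
    intro p y f
    rw [aeval_rename, Sum.elim_comp_inr]
  obtain ⟨h, hh, hsp⟩ := exists_spec k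
    (Sum.elim (fun j => pl.ρ (α j)) fun j => pl.ρ (β j)) (fun i => pl.ρ (x i))
    (fun i => halg (x i)) (rename Sum.inr S) (by rw [hren]; exact hS)
  obtain ⟨a', b', hsol, hspec, hh'⟩ := ih h hh
  obtain ⟨x0, hx0, hS0⟩ := hsp _ hspec hh'
  rw [hren] at hS0
  refine ⟨x0, a', b', hsol, ?_, hS0, ?_, ?_⟩
  · intro f hf
    have h1 := hx0 (rename Sum.inr f) (by rw [hren]; exact hf)
    rwa [hren] at h1
  · intro j N D hND
    have h2 := crep_spec2 x D N (α j) hND
    have h1 := hx0 (X (Sum.inl (Sum.inl j)) * rename Sum.inr D - rename Sum.inr N) (by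
      rw [map_sub, map_mul, hren, hren, aeval_X, Sum.elim_inl, Sum.elim_inl, h2, sub_self])
    rw [map_sub, map_mul, hren, hren, aeval_X, Sum.elim_inl, Sum.elim_inl] at h1
    exact sub_eq_zero.1 h1
  · intro j N D hND
    have h2 := crep_spec2 x D N (β j) hND
    have h1 := hx0 (X (Sum.inl (Sum.inr j)) * rename Sum.inr D - rename Sum.inr N) (by
      rw [map_sub, map_mul, hren, hren, aeval_X, Sum.elim_inl, Sum.elim_inr, h2, sub_self])
    rw [map_sub, map_mul, hren, hren, aeval_X, Sum.elim_inl, Sum.elim_inr] at h1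
    exact sub_eq_zero.1 h1

end Pool.Agent.EXJ
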