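import Mathlib

/-!
# EXI / CTopA: solving the equations near infinity

PROOF.  Let `L = log (φ 1)` (`φ 1 ≠ 0`), so `Re L = log ‖φ 1‖ ≠ 0` and `φ (m) = exp (m L)` for `m ∈ ℤ`.
Lattice: there is `C₀` such that for every `w : ℂ` there are integers `m, l` with
`‖w - (2πi l - m L)‖ ≤ C₀` (first `m` by the real part, then `l`): `C₀ = |Re L| + 2π`, say.
Let `c j = log (V j (a, 0))` and `G j p = log (V j p / V j (a, 0))`: `C^1` at `(a, 0)`, `G j (a, 0) = 0`,
`V j p = exp (c j + G j p)` near `(a, 0)`. There are `r > 0`, `K₀` such that the closed ball of radius `r`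
around `(a, 0)` is in `U`, `V j p = exp (c j + G j p)`, `‖G j p‖ ≤ 1` and all `G j` are `K₀`-Lipschitz on it
(`ContDiffAt.exists_lipschitzOnWith`). For `s > 0` real small, `S = s^{-e}` (as large as we want), choose
`λ j = 2πi l_j - m_j L` with `‖S a_j - ν_j log s - c_j - λ_j‖ ≤ C₀`. The map
`T y j = (ν_j log s + c_j + G j (y, s) + λ_j) / S` maps the closed ball `B` of radius `r` around `a` to
itself (`‖T y j - a j‖ ≤ (1 + C₀) / S ≤ r`) and is a contraction (`K₀ / S < 1`): a fixed point `y`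
(`ContractingWith.exists_fixedPoint'` or `IsComplete`). Then `S y_j = ν_j log s + c_j + G j (y,s) + λ_j`;
exponentiate: `exp (S y_j) = s^{ν_j} V j (y, s) exp (λ_j)`, `exp (λ_j) = exp (- m_j L) = φ (-m_j)`, so
`s^{ν_j} V j (y, s) = exp (S y_j) φ (m_j)`. Take `p = (y, s)`, `q j = m_j`.
-/

set_option autoImplicit false

namespace Pool.Agent.EXJ

open Topology

private theorem phi_ne (φ : AddChar ℤ ℂ) : φ 1 ≠ 0 := by
  intro h
  have h1 : φ 1 * φ (-1) = 1 := by
    rw [← AddChar.map_add_eq_mul, add_neg_cancel, AddChar.map_zero_eq_one]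
  rw [h, zero_mul] at h1
  exact zero_ne_one h1

private theorem phi_int (φ : AddChar ℤ ℂ) (m : ℤ) :
    φ (m : ℤ) = Complex.exp (m * Complex.log (φ 1)) := by
  have h1 : φ (m : ℤ) = φ 1 ^ m := by
    rw [← AddChar.map_zsmul_eq_zpow]
    simp
  rw [h1, Complex.exp_int_mul, Complex.exp_log (phi_ne φ)]

private theorem lattice (L : ℂ) (hL : L.re ≠ 0) (w : ℂ) :
    ∃ m l : ℤ, ‖w - (2 * Real.pi * Complex.I * l - m * L)‖ ≤ |L.re| + 2 * Real.pi := by
  set m : ℤ := - round (w.re / L.re) with hm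
  set l : ℤ := round ((w + m * L).im / (2 * Real.pi)) with hl
  have hpi := Real.pi_pos
  refine ⟨m, l, ?_⟩
  refine (Complex.norm_le_abs_re_add_abs_im _).trans (add_le_add ?_ ?_)
  · have h1 : (w - (2 * Real.pi * Complex.I * l - m * L)).re =
        (w.re / L.re - (round (w.re / L.re) : ℤ)) * L.re := by
      have h2 : (w - (2 * Real.pi * Complex.I * l - m * L)).re = w.re + m * L.re := by
        simp
      rw [h2, hm]
      push_cast
      field_simp
      ring
    rw [h1, abs_mul]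
    have h3 := abs_sub_round (w.re / L.re)
    nlinarith [abs_nonneg L.re]
  · have h1 : (w - (2 * Real.pi * Complex.I * l - m * L)).im =
        ((w + m * L).im / (2 * Real.pi) - (round ((w + m * L).im / (2 * Real.pi)) : ℤ)) *
          (2 * Real.pi) := by
      have h2 : (w - (2 * Real.pi * Complex.I * l - m * L)).im =
          (w + m * L).im - 2 * Real.pi * l := by
        simp
        ring
      rw [h2, ← hl]
      field_simp
    rw [h1, abs_mul, abs_of_pos (by positivity : (0 : ℝ) < 2 * Real.pi)]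
    have h3 := abs_sub_round ((w + m * L).im / (2 * Real.pi))
    nlinarith

/-- the local data -/
private theorem loc {n : ℕ} (a : Fin n → ℂ) (V : (Fin n → ℂ) × ℂ → ℂ)
    (hV : ContDiffAt ℂ 1 V (a, 0)) (hV0 : V (a, 0) ≠ 0) :
    ∃ (c : ℂ) (G : (Fin n → ℂ) × ℂ → ℂ) (K : NNReal) (t : Set ((Fin n → ℂ) × ℂ)),
      t ∈ 𝓝 (a, (0 : ℂ)) ∧ LipschitzOnWith K G t ∧ ∀ p ∈ t, ‖G p‖ ≤ 1 ∧
        V p = Complex.exp (c + G p) := by
  set G : (Fin n → ℂ) × ℂ → ℂ := fun p => Complex.log (V p / V (a, 0)) with hG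
  have h1 : V (a, 0) / V (a, 0) = 1 := div_self hV0
  have hGc : ContDiffAt ℂ 1 G (a, 0) := by
    have h2 : ContDiffAt ℂ 1 Complex.log (V (a, 0) / V (a, 0)) := by
      refine Complex.contDiffAt_log ?_
      rw [h1]
      exact Complex.one_mem_slitPlane
    exact h2.comp (a, (0 : ℂ)) (hV.div_const _)
  obtain ⟨K, t, ht, hK⟩ := hGc.exists_lipschitzOnWith
  have hG0 : G (a, 0) = 0 := by
    rw [hG]
    dsimp only
    rw [h1, Complex.log_one]
  have e1 : ∀ᶠ p in 𝓝 (a, (0 : ℂ)), ‖G p‖ < 1 := by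
    have h3 : Filter.Tendsto (fun p => ‖G p‖) (𝓝 (a, (0 : ℂ))) (𝓝 ‖G (a, 0)‖) :=
      hGc.continuousAt.norm
    rw [hG0, norm_zero] at h3
    exact h3.eventually (gt_mem_nhds zero_lt_one)
  have e2 : ∀ᶠ p in 𝓝 (a, (0 : ℂ)), V p ≠ 0 := hV.continuousAt.eventually_ne hV0
  refine ⟨Complex.log (V (a, 0)), G, K, t ∩ {p | ‖G p‖ < 1 ∧ V p ≠ 0},
    Filter.inter_mem ht (e1.and e2), hK.mono Set.inter_subset_left, ?_⟩
  rintro p ⟨_, hp1, hp2⟩
  refine ⟨hp1.le, ?_⟩
  rw [Complex.exp_add, Complex.exp_log hV0, hG]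
  dsimp only
  rw [Complex.exp_log (div_ne_zero hp2 hV0)]
  field_simp

/-- Solution of the equations near infinity. -/
theorem top_solve (φ : AddChar ℤ ℂ) (hφ : ‖φ 1‖ ≠ 1) {n : ℕ} (a : Fin n → ℂ) (e : ℕ)
    (he : 1 ≤ e) (ν : Fin n → ℤ) (V : Fin n → (Fin n → ℂ) × ℂ → ℂ)
    (hV : ∀ j, ContDiffAt ℂ 1 (V j) (a, 0)) (hV0 : ∀ j, V j (a, 0) ≠ 0)
    (U : Set ((Fin n → ℂ) × ℂ)) (hU : U ∈ 𝓝 (a, (0 : ℂ))) :
    ∃ p ∈ U, p.2 ≠ 0 ∧ ∃ q : Fin n → ℤ, ∀ j,
      p.2 ^ ν j * V j p = Complex.exp (p.1 j * (p.2⁻¹) ^ e) * φ (q j) := by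
  set L := Complex.log (φ 1) with hL
  have hLre : L.re ≠ 0 := by
    rw [hL, Complex.log_re]
    intro h
    have h1 := norm_pos_iff.2 (phi_ne φ)
    rcases Real.log_eq_zero.1 h with h2 | h2 | h2
    · exact h1.ne' h2
    · exact hφ h2
    · linarith
  choose c G K t ht hK hGV using fun j => loc a (V j) (hV j) (hV0 j)
  have hT : U ∩ ⋂ j, t j ∈ 𝓝 (a, (0 : ℂ)) := Filter.inter_mem hU (Filter.iInter_mem.2 ht)
  obtain ⟨r, hr, hball⟩ := Metric.nhds_basis_closedBall.mem_iff.1 hT
  set C₀ := |L.re| + 2 * Real.pi with hC₀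
  have hC0 : 0 ≤ C₀ := by
    have := Real.pi_pos
    positivity
  set K₀ : NNReal := ∑ j, K j with hK₀
  set M : ℝ := 1 + 1 / r + (1 + C₀) / r + K₀ with hM
  have hK00 : (0 : ℝ) ≤ K₀ := K₀.2
  have hr1 : 0 < 1 / r := by positivity
  have hr2 : 0 < (1 + C₀) / r := by positivity
  have hM1 : 1 < M := by linarith
  have hM0 : 0 < M := by linarith
  set s : ℝ := 1 / M with hs
  have hs0 : 0 < s := by positivity
  have hsr : s ≤ r := by
    rw [hs, div_le_iff₀ hM0]
    have : 1 / r * r = 1 := by field_simp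
    nlinarith
  set S : ℝ := (s⁻¹) ^ e with hS
  have hSM : M ≤ S := by
    have h1 : s⁻¹ = M := by
      rw [hs]
      field_simp
    rw [hS, h1]
    exact le_self_pow₀ hM1.le (by omega)
  have hS0 : 0 < S := by linarith
  have hSC : (1 + C₀) / S ≤ r := by
    rw [div_le_iff₀ hS0]
    have h1 : (1 + C₀) / r * r = 1 + C₀ := by field_simp
    have h2 : (1 + C₀) / r ≤ S := by linarith
    nlinarith
  have hSK : (K₀ : ℝ) < S := by linarith
  -- the lattice points
  choose m l hml using fun j => lattice L hLre (S * a j - ν j * Real.log s - c j)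
  set lam : Fin n → ℂ := fun j => 2 * Real.pi * Complex.I * l j - m j * L with hlam
  set T : (Fin n → ℂ) → (Fin n → ℂ) := fun y j =>
    (ν j * Real.log s + c j + G j (y, s) + lam j) / S with hTd
  have hSC0 : (S : ℂ) ≠ 0 := by exact_mod_cast hS0.ne'
  have hmem : ∀ y ∈ Metric.closedBall a r, (y, (s : ℂ)) ∈ U ∩ ⋂ j, t j := by
    intro y hy
    refine hball ?_
    rw [Metric.mem_closedBall, Prod.dist_eq, max_le_iff]
    refine ⟨hy, ?_⟩
    rw [dist_zero_right, Complex.norm_real, Real.norm_eq_abs, abs_of_pos hs0]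
    exact hsr
  have hmaps : Set.MapsTo T (Metric.closedBall a r) (Metric.closedBall a r) := by
    intro y hy
    rw [Metric.mem_closedBall, dist_pi_le_iff hr.le]
    intro j
    have h1 := (hGV j (y, s) (Set.mem_iInter.1 (hmem y hy).2 j)).1
    have h2 : T y j - a j = (G j (y, s) - (S * a j - ν j * Real.log s - c j - lam j)) / S := by
      rw [hTd]
      dsimp only
      field_simp
      ring
    rw [dist_eq_norm, h2, norm_div, Complex.norm_real, Real.norm_eq_abs, abs_of_pos hS0]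
    refine le_trans ?_ hSC
    gcongr
    exact (norm_sub_le _ _).trans (add_le_add h1 (hml j))
  have hlip : ContractingWith (K₀ / Real.toNNReal S)
      (hmaps.restrict T (Metric.closedBall a r) (Metric.closedBall a r)) := by
    have hS' : (0 : NNReal) < Real.toNNReal S := Real.toNNReal_pos.2 hS0
    refine ⟨?_, ?_⟩
    · rw [div_lt_one hS', ← NNReal.coe_lt_coe, Real.coe_toNNReal _ hS0.le]
      exact hSK
    · refine LipschitzWith.of_dist_le_mul fun y z => ?_
      change dist (T y.1) (T z.1) ≤ _ * dist y.1 z.1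
      rw [dist_pi_le_iff (by positivity)]
      intro j
      have h1 := (hK j).dist_le_mul _ (Set.mem_iInter.1 (hmem y.1 y.2).2 j) _
        (Set.mem_iInter.1 (hmem z.1 z.2).2 j)
      have h2 : dist ((y.1, (s : ℂ)) : (Fin n → ℂ) × ℂ) (z.1, (s : ℂ)) = dist y.1 z.1 := by
        rw [Prod.dist_eq, dist_self, max_eq_left dist_nonneg]
      rw [h2] at h1
      have h3 : T y.1 j - T z.1 j = (G j (y.1, s) - G j (z.1, s)) / S := by
        rw [hTd]
        dsimp only
        field_simp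
        ring
      have h4 : (K j : ℝ) ≤ K₀ := by
        have : K j ≤ K₀ := Finset.single_le_sum (f := K) (fun i _ => (K i).2) (Finset.mem_univ j)
        exact_mod_cast this
      rw [dist_eq_norm, h3, norm_div, Complex.norm_real, Real.norm_eq_abs, abs_of_pos hS0,
        ← dist_eq_norm, NNReal.coe_div, Real.coe_toNNReal _ hS0.le, div_mul_eq_mul_div]
      gcongr
      exact h1.trans (mul_le_mul_of_nonneg_right h4 dist_nonneg)
  obtain ⟨y, hy, hfix, -⟩ := ContractingWith.exists_fixedPoint' Metric.isClosed_closedBall.isComplete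
    hmaps hlip (Metric.mem_closedBall_self hr.le) (edist_ne_top _ _)
  refine ⟨(y, (s : ℂ)), (hmem y hy).1, Complex.ofReal_ne_zero.2 hs0.ne', fun j => (m j : ℤ), fun j => ?_⟩
  have h1 := (hGV j (y, s) (Set.mem_iInter.1 (hmem y hy).2 j)).2
  have h2 : T y j = y j := congrFun hfix j
  have h3 : y j * S = ν j * Real.log s + c j + G j (y, s) + lam j := by
    rw [← h2, hTd]
    dsimp only
    field_simp
  have h4 : ((s : ℂ)⁻¹) ^ e = (S : ℂ) := by
    rw [hS]
    push_cast
    rfl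
  have h5 : Complex.exp (lam j) = Complex.exp (-(m j * L)) := by
    rw [hlam]
    dsimp only
    have h6 : 2 * (Real.pi : ℂ) * Complex.I * l j - m j * L =
        -(m j * L) + l j * (2 * Real.pi * Complex.I) := by ring
    rw [h6, Complex.exp_add, Complex.exp_int_mul_two_pi_mul_I, mul_one]
  have h7 : Complex.exp (ν j * Real.log s) = (s : ℂ) ^ ν j := by
    rw [Complex.exp_int_mul, ← Complex.ofReal_exp, Real.exp_log hs0]
  dsimp only
  rw [h1, h4, h3, phi_int, ← hL, Complex.exp_add, Complex.exp_add, Complex.exp_add,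
    Complex.exp_add, h5, h7]
  have h8 : Complex.exp (-(m j * L)) * Complex.exp (m j * L) = 1 := by
    rw [← Complex.exp_add, neg_add_cancel, Complex.exp_zero]
  calc (s : ℂ) ^ ν j * (Complex.exp (c j) * Complex.exp (G j (y, s)))
      = (s : ℂ) ^ ν j * Complex.exp (c j) * Complex.exp (G j (y, s)) * 1 := by ring
    _ = _ := by
      rw [← h8]
      ring

end Pool.Agent.EXJ
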