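import Pool.Agent.EXI.DivG
import Pool.Agent.EXJ.JStep
import Pool.Agent.EXJ.JUni
import Pool.Agent.EXJ.JTop
import Pool.Agent.EXI.CTd

/-!
# EXJ / JAsm: the assembly for characters of `ℤ`

PROOF of `concl`.  Induction on `n`. `n = 0`: `a' = a`, `b' = b` (all functions from `Fin 0` are equal).
`n = m + 1`: if `td k a < m + 1`, `divG` gives `U, pl, A, B`; the induction hypothesis for the residues
(`Hyp` in dimension `m`); by `concl_uni` it is enough to prove `Concl φ k (linZ U a) (powZ U b)`; let `h`
be given; evaluate in `K = k(a, b)`: `aeval (A, B) h ∈ K` has the image `aeval (linZ U a, powZ U b) h` in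
`ℂ` (`MvPolynomial.aeval_algebraMap_apply`, `IntermediateField.val`), so `step` applies (`htr`:
`td_not_ind`; `hfg`: `K` is generated by the coordinates; `B 0 ≠ 0` since `powZ U b 0 ≠ 0`).
If `td k a = m + 1` (`rk_le_card`), `a` is algebraically independent (`ind_iff`), `b` is algebraic
over `k(a)` (`top_alg`, `h.2.1`), use `concl_top`.
-/

set_option autoImplicit false

namespace Pool.Agent.EXJ

open MvPolynomial Pool.Agent.EXL Pool.Agent.EXI

private theorem fg_adjoin (k : Subfield ℂ) {ι : Type} [Fintype ι] (z : ι → ℂ) :
    ∃ S : Finset (IntermediateField.adjoin k (Set.range z)),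
      IntermediateField.adjoin k (S : Set (IntermediateField.adjoin k (Set.range z))) = ⊤ := by
  classical
  set K := IntermediateField.adjoin k (Set.range z) with hK
  have hz : ∀ i, z i ∈ K := fun i => IntermediateField.subset_adjoin k _ ⟨i, rfl⟩
  refine ⟨Finset.univ.image (fun i => (⟨z i, hz i⟩ : K)), ?_⟩
  rw [eq_top_iff]
  intro x _
  set L := IntermediateField.adjoin k
    ((Finset.univ.image (fun i => (⟨z i, hz i⟩ : K)) : Finset K) : Set K) with hL
  have h1 : K ≤ L.map K.val := by
    refine IntermediateField.adjoin_le_iff.2 ?_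
    rintro _ ⟨i, rfl⟩
    refine ⟨⟨z i, hz i⟩, ?_, rfl⟩
    apply IntermediateField.subset_adjoin
    simp
  obtain ⟨y, hy, hyx⟩ := h1 x.2
  have : y = x := Subtype.ext hyx
  rw [← this]
  exact hy

theorem concl (φ : AddChar ℤ ℂ) (hφ : ‖φ 1‖ ≠ 1) (k : Subfield ℂ) (hk : (k : Set ℂ).Countable)
    (hk' : IsAlgClosed k) : ∀ (n : ℕ) (a b : Fin n → ℂ), Hyp k a b → Concl φ k a b := by
  intro n
  induction n with
  | zero =>
    intro a b _ h hh
    exact ⟨a, b, ⟨fun i => i.elim0, fun i => i.elim0⟩, fun f hf => hf, hh⟩
  | succ m ih =>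
    intro a b hyp
    by_cases hlt : td (k : Set ℂ) a < m + 1
    · obtain ⟨U, hU, pl, A, B, hA, hB, h0, hB1, hyp'⟩ := divG k hk hk' a b hyp hlt
      apply concl_uni φ k a b hyp.1 U hU
      intro h hh
      have hval : ∀ f : MvPolynomial (Fin (m + 1) ⊕ Fin (m + 1)) k,
          aeval (Sum.elim (linZ U a) (powZ U b)) f =
          ((aeval (Sum.elim
            (fun j => (A j : IntermediateField.adjoin k (Set.range (Sum.elim a b))))
            fun j => (B j : IntermediateField.adjoin k (Set.range (Sum.elim a b)))) f :
            IntermediateField.adjoin k (Set.range (Sum.elim a b))) : ℂ) := by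
        intro f
        have h1 := aeval_algebraMap_apply (R := k) ℂ (Sum.elim
            (fun j => (A j : IntermediateField.adjoin k (Set.range (Sum.elim a b))))
            fun j => (B j : IntermediateField.adjoin k (Set.range (Sum.elim a b)))) f
        refine Eq.trans ?_ h1
        congr 2
        funext i
        rcases i with i | i
        · exact (hA i).symm
        · exact (hB i).symm
      have hB0 : ((B 0 : pl.O) : IntermediateField.adjoin k (Set.range (Sum.elim a b))) ≠ 0 := by
        intro hz
        have h1 := hB 0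
        rw [hz] at h1
        have h2 : powZ U b 0 ≠ 0 := by
          unfold powZ
          exact Finset.prod_ne_zero_iff.2 fun i _ => zpow_ne_zero _ (hyp.1 i)
        exact h2 (by rw [← h1]; rfl)
      obtain ⟨a', b', hs, hsp, hne⟩ := step φ hφ pl (fg_adjoin k _)
        (td_not_ind k (Sum.elim a b) hyp.2.1) A B hB0 h0 hyp' (ih _ _ hyp') h (by
          intro hz
          apply hh
          rw [hval, hz]
          rfl)
      refine ⟨a', b', hs, ?_, hne⟩
      intro f hf
      apply hsp
      rw [hval] at hf
      exact Subtype.ext hf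
    · have htd : td (k : Set ℂ) a = m + 1 := by
        refine le_antisymm ?_ (not_lt.1 hlt)
        have := rk_le_card (DerOver (k : Set ℂ)) a
        rwa [Fintype.card_fin] at this
      exact concl_top φ hφ k a b ((ind_iff k a).2 htd) hyp.1 (top_alg k a b htd hyp.2.1)

end Pool.Agent.EXJ
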