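import Pool.Agent.EXJ.JAx
import Pool.Agent.EXJ.JDefs

/-!
# EXJ / JRed: reduction to transcendence degree `n`

PROOF.  Let `Δ = eD k a b`, `t = Sum.elim a b`, `r = rk Δ t`. Since `D b_j = b_j D a_j` on `Δ`,
`r = rk Δ a` (`rk_eq_of_dep`). Let `d = td k t`; `n + r ≤ d` (`axd_ge`); the kernel of the map
`DerOver k → ℂ^n`, `D ↦ (D b_j / b_j - D a_j)` is `Δ`, so on the space `(DerOver k).map (ev t)` of
dimension `d` this gives `d - r ≤ n`; hence `d = n + r`. Choose a finset `s` of `r` coordinates of `t`
such that `rk Δ (t|s) = r` (a basis of coordinates: `exists_linearIndependent`-type argument, or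
induction: the functionals `D ↦ D t_i` on the `r`-dimensional space `Δ.map (ev t)` span its dual), let
`e = t|s` and `k' := consts (DerOver (k ∪ range e))`. `td k e = r` (`r = rk Δ e ≤ td k e ≤ card s = r`),
`td k' t = td k t - td k e = n` (`td_sum`; `DerOver k' = DerOver (k ∪ range e)`,
`le_derOver_consts`, `derOver_closure`..). `hform`: if `D ∈ DerOver k'` and `D b_j = b_j D a_j`, then
`D ∈ Δ` and `D e = 0`, so `D t = 0` since `rk Δ e = rk Δ t` (the restriction of coordinates
`Δ.map (ev t) → ℂ^s` is injective). `k'` is algebraically closed (`consts_isAlgClosed`) and countable: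
every element is algebraic over the field generated by `k ∪ range e` (`exists_der_ne_zero` in
EXL/Tdi), which is countable; `Algebraic.countable`.
-/

set_option autoImplicit false

namespace Pool.Agent.EXJ

open MvPolynomial Pool.Agent.EXL Pool.Agent.EXI

theorem countable_consts (S : Set ℂ) (hS : S.Countable) :
    ((consts (DerOver S) : Subfield ℂ) : Set ℂ).Countable := by
  set F : Subfield ℂ := Subfield.closure S with hF
  have hFc : Countable F := by
    rw [← Cardinal.mk_le_aleph0_iff]
    refine (Subfield.cardinalMk_closure_le_max S).trans (max_le ?_ le_rfl)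
    exact Cardinal.mk_le_aleph0_iff.2 hS.to_subtype
  have h1 := Algebraic.countable F ℂ
  refine h1.mono fun x hx => ?_
  by_contra hcon
  obtain ⟨D, hD, hDx⟩ := exists_der_ne_zero F x hcon
  rw [hF, derOver_closure] at hD
  exact hDx (hx D hD)

/-- A basis of coordinates for a space of derivations. -/
private theorem exists_coord {E : Type*} [Field E] {ι : Type*} [Finite ι]
    (Δ : Submodule E (Derivation ℤ E E)) (x : ι → E) :
    ∃ s : Finset ι, s.card = rk Δ (fun i : s => x i) ∧
      ∀ D ∈ Δ, (∀ i ∈ s, D (x i) = 0) → ∀ j, D (x j) = 0 := by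
  classical
  have := Fintype.ofFinite ι
  obtain ⟨s, hs, hmin⟩ := Finset.exists_min_image
    ((Finset.univ : Finset (Finset ι)).filter fun s : Finset ι =>
      ∀ D ∈ Δ, (∀ i ∈ s, D (x i) = 0) → ∀ j, D (x j) = 0) Finset.card
    ⟨Finset.univ, by
      rw [Finset.mem_filter]
      exact ⟨Finset.mem_univ _, fun D _ h j => h j (Finset.mem_univ j)⟩⟩
  rw [Finset.mem_filter] at hs
  refine ⟨s, ?_, hs.2⟩
  by_contra hne
  have hle := rk_le_card Δ (fun i : s => x i)
  rw [Fintype.card_coe] at hle
  have hlt : Δ.map (ev fun i : s => x i) < ⊤ := by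
    rw [lt_top_iff_ne_top]
    intro htop
    apply hne
    unfold rk
    rw [htop, finrank_top, Module.finrank_fintype_fun_eq_card, Fintype.card_coe]
  obtain ⟨g, hg0, hg⟩ := Submodule.exists_le_ker_of_lt_top _ hlt
  have hgs : ∀ v : s → E, g v = ∑ i, v i * g (fun j => if i = j then 1 else 0) := by
    intro v
    have h1 := LinearMap.pi_apply_eq_sum_univ g v
    simpa using h1
  obtain ⟨i₀, hi₀⟩ : ∃ i₀ : s, g (fun j => if i₀ = j then 1 else 0) ≠ 0 := by
    by_contra hcon
    push Not at hcon
    apply hg0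
    apply LinearMap.ext
    intro v
    rw [hgs v, LinearMap.zero_apply]
    exact Finset.sum_eq_zero fun i _ => by rw [hcon i, mul_zero]
  have hmem : s.erase i₀ ∈ (Finset.univ : Finset (Finset ι)).filter fun s : Finset ι =>
      ∀ D ∈ Δ, (∀ i ∈ s, D (x i) = 0) → ∀ j, D (x j) = 0 := by
    rw [Finset.mem_filter]
    refine ⟨Finset.mem_univ _, fun D hD h => hs.2 D hD fun i hi => ?_⟩
    by_cases hii : i = i₀
    · have h1 : g (ev (fun i : s => x i) D) = 0 := hg (Submodule.mem_map_of_mem hD)
      rw [hgs, Finset.sum_eq_single i₀] at h1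
      · have h2 := (mul_eq_zero.1 h1).resolve_right hi₀
        rw [hii]
        exact h2
      · intro j _ hj
        have h3 : D (x j) = 0 := h j (Finset.mem_erase.2
          ⟨fun h4 => hj (Subtype.ext h4), j.2⟩)
        have h4 : ev (fun i : s => x i) D j = 0 := h3
        rw [h4, zero_mul]
      · intro h3
        exact absurd (Finset.mem_univ _) h3
    · exact h i (Finset.mem_erase.2 ⟨hii, hi⟩)
  have h1 := hmin _ hmem
  rw [Finset.card_erase_of_mem i₀.2] at h1
  have h2 : 0 < s.card := Finset.card_pos.2 ⟨i₀, i₀.2⟩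
  omega

theorem exists_red (k : Subfield ℂ) (hk : (k : Set ℂ).Countable) {n : ℕ} (a b : Fin n → ℂ)
    (hb : ∀ j, b j ≠ 0)
    (hrot : ∀ (s : ℕ) (w : Fin s → Fin n → ℤ), LinearIndependent ℚ (fun i => qv (w i)) →
      s ≤ td (k : Set ℂ) (Sum.elim (fun i => ∑ j, (w i j : ℂ) * a j) fun i => mon b (w i))) :
    ∃ k' : Subfield ℂ, k ≤ k' ∧ (k' : Set ℂ).Countable ∧ IsAlgClosed k' ∧ Hyp k' a b := by
  classical
  set Δ := eD k a b with hΔ
  set t : Fin n ⊕ Fin n → ℂ := Sum.elim a b with ht
  have hΔk : Δ ≤ DerOver (k : Set ℂ) := fun D hD => hD.1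
  have e1 : rk Δ t = rk Δ a := by
    refine rk_eq_of_dep _ _ _ ?_ ?_
    · intro D _ h j
      exact h (Sum.inl j)
    · intro D hD h i
      rcases i with i | i
      · exact h i
      · change D (b i) = 0
        rw [hD.2 i, h i, mul_zero]
  have e2 := axd_ge k a b hb hrot
  rw [← hΔ, ← e1, ← ht, Fintype.card_fin] at e2
  -- the other inequality
  have e3 : td (k : Set ℂ) t ≤ n + rk Δ t := by
    set V : Submodule ℂ (Fin n ⊕ Fin n → ℂ) := (DerOver (k : Set ℂ)).map (ev t) with hV
    let θ : (Fin n ⊕ Fin n → ℂ) →ₗ[ℂ] (Fin n → ℂ) :=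
      { toFun := fun v j => v (Sum.inr j) / b j - v (Sum.inl j)
        map_add' := by
          intro v w
          funext j
          simp only [Pi.add_apply]
          ring
        map_smul' := by
          intro c v
          funext j
          simp only [Pi.smul_apply, smul_eq_mul, RingHom.id_apply]
          ring }
    have h1 := LinearMap.finrank_range_add_finrank_ker (θ.domRestrict V)
    have h2 : Module.finrank ℂ (LinearMap.range (θ.domRestrict V)) ≤ n := by
      calc _ ≤ Module.finrank ℂ (Fin n → ℂ) := Submodule.finrank_le _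
        _ = n := by rw [Module.finrank_fintype_fun_eq_card, Fintype.card_fin]
    have h3 : Module.finrank ℂ (LinearMap.ker (θ.domRestrict V)) ≤ rk Δ t := by
      have h4 : ∀ v ∈ V, θ v = 0 → v ∈ Δ.map (ev t) := by
        rintro _ ⟨D, hD, rfl⟩ h0
        refine ⟨D, ⟨hD, fun i => ?_⟩, rfl⟩
        have h5 : D (b i) / b i - D (a i) = 0 := congrFun h0 i
        rw [sub_eq_zero, div_eq_iff (hb i)] at h5
        rw [h5, mul_comm]
      let ψ : LinearMap.ker (θ.domRestrict V) →ₗ[ℂ] Δ.map (ev t) :=
        { toFun := fun v => ⟨v.1.1, h4 _ v.1.2 v.2⟩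
          map_add' := fun _ _ => rfl
          map_smul' := fun _ _ => rfl }
      refine LinearMap.finrank_le_finrank_of_injective (f := ψ) ?_
      intro v w hvw
      have hvw' : ψ v = ψ w := hvw
      have h6 : ((ψ v : Δ.map (ev t)) : Fin n ⊕ Fin n → ℂ) = ((ψ w : Δ.map (ev t)) : _) := by
        rw [hvw']
      exact Subtype.ext (Subtype.ext h6)
    have h5 : td (k : Set ℂ) t = Module.finrank ℂ V := rfl
    omega
  have e4 : td (k : Set ℂ) t = n + rk Δ t := le_antisymm e3 e2
  -- coordinates
  obtain ⟨s, hs, hkill⟩ := exists_coord Δ t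
  set e : s → ℂ := fun i => t i with he
  have e5 : rk Δ e = rk Δ t := by
    refine rk_eq_of_dep _ _ _ ?_ ?_
    · intro D hD h j
      exact hkill D hD (fun i hi => h ⟨i, hi⟩) j
    · intro D _ h i
      exact h i
  have e6 : td (k : Set ℂ) e = rk Δ t := by
    apply le_antisymm
    · have h1 := rk_le_card (DerOver (k : Set ℂ)) e
      rw [Fintype.card_coe, hs, e5] at h1
      exact h1
    · rw [← e5]
      exact rk_mono hΔk e
  set A : Set ℂ := (k : Set ℂ) ∪ Set.range e with hA
  have hAsub : A ⊆ (consts (DerOver A) : Set ℂ) := fun x hx D hD => hD x hx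
  have hder : DerOver ((consts (DerOver A) : Subfield ℂ) : Set ℂ) = DerOver A :=
    le_antisymm (derOver_anti hAsub) (le_derOver_consts _)
  have hkk : k ≤ consts (DerOver A) := fun x hx => hAsub (Or.inl hx)
  refine ⟨consts (DerOver A), hkk, ?_, consts_isAlgClosed _, hb, ?_, ?_⟩
  · exact countable_consts A (hk.union (Set.countable_range e))
  · have h1 := td_sum (k : Set ℂ) e t
    have h2 : td (k : Set ℂ) (Sum.elim e t) = td (k : Set ℂ) t := by
      refine rk_eq_of_dep _ _ _ ?_ ?_
      · intro D _ h j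
        exact h (Sum.inr j)
      · intro D _ h i
        rcases i with i | i
        · exact h i
        · exact h i
    have h3 : td ((consts (DerOver A) : Subfield ℂ) : Set ℂ) t = td A t := by
      unfold td
      rw [hder]
    rw [← ht, h3]
    rw [h2, e4, e6, ← hA] at h1
    omega
  · intro D hD hDb j
    have h1 : D ∈ Δ := ⟨fun x hx => hD x (hkk hx), hDb⟩
    exact hkill D h1 (fun i hi => hD _ (hAsub (Or.inr ⟨⟨i, hi⟩, rfl⟩))) (Sum.inl j)

/-- The conclusion for the bigger field implies the conclusion for the smaller one. -/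
theorem concl_of_le (φ : AddChar ℤ ℂ) (k k' : Subfield ℂ) (hkk' : k ≤ k') {n : ℕ}
    (a b : Fin n → ℂ) (hc : Concl φ k' a b) : Concl φ k a b := by
  have key : ∀ (f : MvPolynomial (Fin n ⊕ Fin n) k) (x : Fin n ⊕ Fin n → ℂ),
      aeval x (MvPolynomial.map (Subfield.inclusion hkk') f) = aeval x f := by
    intro f x
    rw [aeval_def, aeval_def, eval₂_map]
    rfl
  intro h hh
  obtain ⟨a', b', h1, h2, h3⟩ := hc (MvPolynomial.map (Subfield.inclusion hkk') h) (by
    rw [key]
    exact hh)
  refine ⟨a', b', h1, fun f hf => ?_, ?_⟩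
  · have h4 := h2 (MvPolynomial.map (Subfield.inclusion hkk') f) (by
      rw [key]
      exact hf)
    rwa [key] at h4
  · rwa [key] at h3

end Pool.Agent.EXJ
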