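import Pool.Agent.EXJ.JGen
import Pool.Agent.EXI.ADefs

/-!
# EXJ / JRot: rotundity of the variety and of the generic point

`hrot` is the rotundity condition of the frozen statement S14477. `p` is a generic point of `P` over
`k`, `a = p ∘ inl`, `b = p ∘ inr`.

PROOF.  `b_ne`: `n ≥ 1`; the condition for the matrix `M = (1 0 .. 0)` (`k = 1`, rank `1`) gives `V`
nonempty (otherwise all polynomials `f` with `vars ⊆ J`, e.g. `f = 1`, would be `0`); a point of `V`
shows `X (inr j) ∉ P`, so `p (inr j) ≠ 0` by `hp`.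
`rot_point`: let `w : Fin s → Fin n → ℤ` have linearly independent rows. `s = 0`: trivial. Otherwise
`1 ≤ s ≤ n` and the rank of the matrix `w` is `s`. Let `J` be the set of the condition,
`s ≤ J.card`. The coordinates in `J` of the tuple `u = Sum.elim (w_i . a) (mon b w_i)` are
algebraically independent over `k`: let `f₀` be a polynomial over `k` with `vars ⊆ J` and
`aeval u f₀ = 0`. Let `N` be large and `g(X) = (∏ X_{inr j})^N f₀(w . X_{inl}, X_{inr}^{w})`, a
polynomial `G₀` over `k` with `aeval x G₀ = (∏ x_{inr j})^N aeval (Sum.elim (w_i . x_{inl})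
(mon x_{inr} w_i)) f₀` for all `x` with `x_{inr j} ≠ 0` (induction on `f₀`, or clear denominators of
the finitely many monomials). `aeval p G₀ = 0`, so `map G₀ ∈ P`, and `G₀` vanishes on `V`; so
`map f₀` vanishes at all `(w . x, x^w)`, `x ∈ V`, and `map f₀ = 0` by the condition. Hence
`td k u ≥ J.card ≥ s` (`card_le_td` in EXL/Tdi with `Set.range (algebraMap k ℂ) = k`).
-/

set_option autoImplicit false

namespace Pool.Agent.EXJ

open MvPolynomial Pool.Agent.EXL Pool.Agent.EXI

/-- The rotundity condition. -/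
def Rotund {n : ℕ} (V : Set (Fin n ⊕ Fin n → ℂ)) : Prop :=
  ∀ k : ℕ, 1 ≤ k → k ≤ n → ∀ M : Matrix (Fin k) (Fin n) ℤ,
    ∃ J : Finset (Fin k ⊕ Fin k),
      (M.map (Int.cast : ℤ → ℚ)).rank ≤ J.card ∧
      ∀ f : MvPolynomial (Fin k ⊕ Fin k) ℂ, f.vars ⊆ J →
        (∀ p ∈ V, MvPolynomial.eval
            (Sum.elim (fun i : Fin k => ∑ j : Fin n, (M i j : ℂ) * p (Sum.inl j))
                      (fun i : Fin k => ∏ j : Fin n, p (Sum.inr j) ^ (M i j))) f = 0) →
        f = 0

private lemma eval_mapA (k : Subfield ℂ) {ι : Type} (x : ι → ℂ) (f : MvPolynomial ι k) :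
    eval x (map (algebraMap k ℂ) f) = aeval x f := by
  rw [eval_map, aeval_def]

/-- Clearing the denominators. -/
private lemma key (k : Subfield ℂ) {n s : ℕ} (w : Fin s → Fin n → ℤ)
    (f : MvPolynomial (Fin s ⊕ Fin s) k) :
    ∃ (f' : MvPolynomial (Fin n ⊕ Fin n) k) (N : ℕ), ∀ A B : Fin n → ℂ, (∀ i, B i ≠ 0) →
      aeval (Sum.elim A B) f' = (∏ i, B i) ^ N *
        aeval (Sum.elim (fun i => ∑ j, (w i j : ℂ) * A j) fun i => mon B (w i)) f := by
  have hP : ∀ A B : Fin n → ℂ, aeval (Sum.elim A B)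
      (∏ i, X (Sum.inr i) : MvPolynomial (Fin n ⊕ Fin n) k) = ∏ i, B i := by
    intro A B
    rw [map_prod]
    exact Finset.prod_congr rfl fun i _ => by rw [aeval_X]; rfl
  induction f using MvPolynomial.induction_on with
  | C c =>
    refine ⟨C c, 0, fun A B _ => ?_⟩
    rw [algHom_C, algHom_C, pow_zero, one_mul]
  | add p q hp hq =>
    obtain ⟨p', s, hp'⟩ := hp
    obtain ⟨q', r, hq'⟩ := hq
    refine ⟨p' * (∏ i, X (Sum.inr i)) ^ r + q' * (∏ i, X (Sum.inr i)) ^ s, s + r,
      fun A B hB => ?_⟩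
    rw [map_add, map_mul, map_mul, map_pow, map_pow, hP, hp' A B hB, hq' A B hB, map_add]
    ring
  | mul_X p i hp =>
    obtain ⟨p', s, hp'⟩ := hp
    cases i with
    | inl j =>
      refine ⟨p' * ∑ i, C (w j i : k) * X (Sum.inl i), s, fun A B hB => ?_⟩
      rw [map_mul, hp' A B hB, map_mul, aeval_X, map_sum]
      have : ∑ i, aeval (Sum.elim A B) (C (w j i : k) * X (Sum.inl i)) =
          ∑ i, (w j i : ℂ) * A i := by
        refine Finset.sum_congr rfl fun i _ => ?_
        rw [map_mul, algHom_C, aeval_X]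
        simp
      rw [this]
      simp only [Sum.elim_inl]
      ring
    | inr j =>
      set S : ℕ := ∑ i, (w j i).natAbs with hS
      refine ⟨p' * ∏ i, X (Sum.inr i) ^ ((S : ℤ) + w j i).toNat, s + S, fun A B hB => ?_⟩
      rw [map_mul, hp' A B hB, map_mul, aeval_X, map_prod]
      have h1 : ∏ i, aeval (Sum.elim A B) (X (Sum.inr i) ^ ((S : ℤ) + w j i).toNat :
          MvPolynomial (Fin n ⊕ Fin n) k) = (∏ i, B i) ^ S * mon B (w j) := by
        unfold mon
        rw [← Finset.prod_pow, ← Finset.prod_mul_distrib]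
        refine Finset.prod_congr rfl fun i _ => ?_
        rw [map_pow, aeval_X, Sum.elim_inr, ← zpow_natCast, ← zpow_natCast, ← zpow_add₀ (hB i)]
        have h3 : (((S : ℤ) + w j i).toNat : ℤ) = (S : ℤ) + w j i := by
          apply Int.toNat_of_nonneg
          have h2 : (w j i).natAbs ≤ S :=
            Finset.single_le_sum (f := fun i => (w j i).natAbs) (fun _ _ => Nat.zero_le _)
              (Finset.mem_univ i)
          omega
        rw [h3]
      rw [h1]
      simp only [Sum.elim_inr]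
      ring

variable {n : ℕ} (P : Ideal (MvPolynomial (Fin n ⊕ Fin n) ℂ)) (V : Set (Fin n ⊕ Fin n → ℂ))
  (hV : V = {p | (∀ f ∈ P, MvPolynomial.eval p f = 0) ∧ ∀ j : Fin n, p (Sum.inr j) ≠ 0})
  (hrot : Rotund V) (k : Subfield ℂ) (p : Fin n ⊕ Fin n → ℂ)
  (hp : ∀ f : MvPolynomial (Fin n ⊕ Fin n) k, aeval p f = 0 ↔ map (algebraMap k ℂ) f ∈ P)

include hV hrot hp

theorem b_ne (j : Fin n) : p (Sum.inr j) ≠ 0 := by
  intro h0
  have h1 : (X (Sum.inr j) : MvPolynomial (Fin n ⊕ Fin n) ℂ) ∈ P := by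
    have h2 := (hp (X (Sum.inr j))).1 (by rw [aeval_X, h0])
    rwa [map_X] at h2
  have hn : 1 ≤ n := j.pos
  obtain ⟨J, -, hJ⟩ := hrot 1 le_rfl hn 0
  have h3 : (1 : MvPolynomial (Fin 1 ⊕ Fin 1) ℂ) = 0 := by
    refine hJ 1 ?_ ?_
    · rw [← C_1, vars_C]
      exact Finset.empty_subset _
    · intro x hx
      exfalso
      rw [hV] at hx
      apply hx.2 j
      have h4 := hx.1 _ h1
      rwa [eval_X] at h4
  exact one_ne_zero h3

theorem rot_point (s : ℕ) (w : Fin s → Fin n → ℤ) (hw : LinearIndependent ℚ (fun i => qv (w i))) :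
    s ≤ td (k : Set ℂ) (Sum.elim (fun i => ∑ j, (w i j : ℂ) * p (Sum.inl j))
      fun i => mon (fun j => p (Sum.inr j)) (w i)) := by
  rcases Nat.eq_zero_or_pos s with hs | hs
  · subst hs
    exact Nat.zero_le _
  have hsn : s ≤ n := by
    have h1 := hw.fintype_card_le_finrank
    rwa [Fintype.card_fin, Module.finrank_fintype_fun_eq_card, Fintype.card_fin] at h1
  have hrank : ((Matrix.of w).map (Int.cast : ℤ → ℚ)).rank = s := by
    have h1 : LinearIndependent ℚ ((Matrix.of w).map (Int.cast : ℤ → ℚ)).row := hw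
    rw [h1.rank_matrix, Fintype.card_fin]
  obtain ⟨J, hJ1, hJ2⟩ := hrot s hs hsn (Matrix.of w)
  rw [hrank] at hJ1
  refine le_trans hJ1 ?_
  have hk : (k : Set ℂ) = Set.range (algebraMap k ℂ) := by
    ext z
    constructor
    · intro hz
      exact ⟨⟨z, hz⟩, rfl⟩
    · rintro ⟨c, rfl⟩
      exact c.2
  rw [hk]
  apply card_le_td
  rw [algebraicIndependent_iff]
  intro q hq
  set u : Fin s ⊕ Fin s → ℂ := Sum.elim (fun i => ∑ j, (w i j : ℂ) * p (Sum.inl j))
      fun i => mon (fun j => p (Sum.inr j)) (w i) with hu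
  have hf : aeval u (rename (fun i : J => (i : Fin s ⊕ Fin s)) q) = 0 := by
    rw [aeval_rename]
    exact hq
  obtain ⟨G, N, hG⟩ := key k w (rename (fun i : J => (i : Fin s ⊕ Fin s)) q)
  have hGP : map (algebraMap k ℂ) G ∈ P := by
    rw [← hp]
    have h1 := hG (fun j => p (Sum.inl j)) (fun j => p (Sum.inr j))
      (fun j => b_ne P V hV hrot k p hp j)
    have h2 : Sum.elim (fun j => p (Sum.inl j)) (fun j => p (Sum.inr j)) = p := by
      funext i
      cases i <;> rfl
    rw [h2] at h1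
    rw [h1]
    change _ * aeval u _ = 0
    rw [hf, mul_zero]
  have hmap : map (algebraMap k ℂ) (rename (fun i : J => (i : Fin s ⊕ Fin s)) q) = 0 := by
    refine hJ2 _ ?_ ?_
    · classical
      refine (vars_map (rename (fun i : J => (i : Fin s ⊕ Fin s)) q) (algebraMap k ℂ)).trans ?_
      refine (vars_rename (fun i : J => (i : Fin s ⊕ Fin s)) q).trans ?_
      intro i hi
      obtain ⟨t, -, rfl⟩ := Finset.mem_image.1 hi
      exact t.2
    · intro x hx
      rw [hV] at hx
      have h1 := hG (fun j => x (Sum.inl j)) (fun j => x (Sum.inr j)) hx.2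
      have h2 : Sum.elim (fun j => x (Sum.inl j)) (fun j => x (Sum.inr j)) = x := by
        funext i
        cases i <;> rfl
      rw [h2] at h1
      have h3 : aeval x G = 0 := by
        rw [← eval_mapA]
        exact hx.1 _ hGP
      rw [h3] at h1
      have h4 := (mul_eq_zero.1 h1.symm).resolve_left
        (pow_ne_zero _ (Finset.prod_ne_zero_iff.2 fun i _ => hx.2 i))
      rw [eval_mapA]
      exact h4
  have h5 : rename (fun i : J => (i : Fin s ⊕ Fin s)) q = 0 := by
    apply map_injective (algebraMap k ℂ) (algebraMap k ℂ).injective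
    rw [hmap, map_zero]
  apply rename_injective (fun i : J => (i : Fin s ⊕ Fin s)) Subtype.val_injective
  rw [h5, map_zero]

end Pool.Agent.EXJ
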