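import Pool.Agent.EXJ.JAsm
import Pool.Agent.EXJ.JRed
import Pool.Agent.EXJ.JRot

/-!
# EXJ / JFin: exponential closedness up to a cyclic group
-/

set_option autoImplicit false

namespace Pool.Agent.EXJ

open MvPolynomial Pool.Agent.EXL Pool.Agent.EXI

/-- The character `m ↦ g ^ m` of `ℤ`. -/
noncomputable def chr (g : ℂ) (hg : g ≠ 0) : AddChar ℤ ℂ where
  toFun m := g ^ m
  map_zero_eq_one' := zpow_zero g
  map_add_eq_mul' a b := zpow_add₀ hg a b

/-- Every rotund variety contains a Zariski dense set of points of the form `(z, exp(z) g^q)` with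
`q` integral, if `|g| ≠ 1`. -/
theorem closed (g : ℂ) (hg : g ≠ 0) (hg1 : ‖g‖ ≠ 1) {n : ℕ}
    (P : Ideal (MvPolynomial (Fin n ⊕ Fin n) ℂ)) (V : Set (Fin n ⊕ Fin n → ℂ)) (hP : P.IsPrime)
    (hV : V = {p | (∀ f ∈ P, MvPolynomial.eval p f = 0) ∧ ∀ j : Fin n, p (Sum.inr j) ≠ 0})
    (hrot : Rotund V) (h : MvPolynomial (Fin n ⊕ Fin n) ℂ) (hh : h ∉ P) :
    ∃ (z : Fin n → ℂ) (q : Fin n → ℤ),
      (∀ f ∈ P, MvPolynomial.eval (Sum.elim z fun j => Complex.exp (z j) * g ^ q j) f = 0) ∧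
      MvPolynomial.eval (Sum.elim z fun j => Complex.exp (z j) * g ^ q j) h ≠ 0 := by
  obtain ⟨k, hk, p, h₀, hh₀, hp, hspec⟩ := exists_generic P hP h
  have hb : ∀ j, p (Sum.inr j) ≠ 0 := fun j => b_ne P V hV hrot k p hp j
  have hr := rot_point P V hV hrot k p hp
  obtain ⟨k', hkk', hk'c, hk'a, hyp⟩ := exists_red k hk (fun j => p (Sum.inl j))
    (fun j => p (Sum.inr j)) hb hr
  have hc := concl_of_le (chr g hg) k k' hkk' _ _
    (concl (chr g hg) (by
      change ‖g ^ (1 : ℤ)‖ ≠ 1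
      rwa [zpow_one]) k' hk'c hk'a n _ _ hyp)
  have hpe : Sum.elim (fun j => p (Sum.inl j)) (fun j => p (Sum.inr j)) = p := by
    funext i
    rcases i with i | i <;> rfl
  obtain ⟨a', b', ⟨q, hq⟩, hsp, hne⟩ := hc h₀ (by
    rw [hpe]
    intro h0
    exact hh (hh₀ ▸ (hp h₀).1 h0))
  rw [hpe] at hsp
  have hb' : b' = fun j => Complex.exp (a' j) * g ^ q j := funext hq
  subst hb'
  refine ⟨a', q, ?_, ?_⟩
  · exact hspec _ fun f hf => hsp f ((hp f).2 hf)
  · rw [← hh₀, eval_map, ← aeval_def]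
    exact hne

end Pool.Agent.EXJ
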